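import Pool.Agent.APInt.Upper

/-!
A family attaining the star bound.
-/

set_option autoImplicit false

namespace Pool.Agent.APInt

open Finset

lemma isAP_three (a d : ℤ) (hd : 1 ≤ d) : IsAP {a, a + d, a + 2 * d} := by
  refine ⟨a, d, 3, hd, by norm_num, ?_⟩
  ext t
  simp only [mem_insert, mem_singleton, mem_image, mem_range]
  constructor
  · rintro (rfl | rfl | rfl)
    · exact ⟨0, by norm_num, by simp⟩
    · exact ⟨1, by norm_num, by simp⟩
    · exact ⟨2, by norm_num, by simp⟩
  · rintro ⟨i, hi, rfl⟩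
    interval_cases i
    · left; simp
    · right; left; simp
    · right; right; simp

lemma isAP_pair' (a d : ℤ) (hd : 1 ≤ d) : IsAP {a, a + d} := by
  refine ⟨a, d, 2, hd, by norm_num, ?_⟩
  ext t
  simp only [mem_insert, mem_singleton, mem_image, mem_range]
  constructor
  · rintro (rfl | rfl)
    · exact ⟨0, by norm_num, by simp⟩
    · exact ⟨1, by norm_num, by simp⟩
  · rintro ⟨i, hi, rfl⟩
    interval_cases i
    · left; simp
    · right; simp

lemma isAP_singleton (a : ℤ) : IsAP {a} := by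
  refine ⟨a, 1, 1, le_refl _, le_refl _, ?_⟩
  ext t
  simp only [mem_singleton, mem_image, mem_range]
  constructor
  · rintro rfl
    exact ⟨0, by norm_num, by simp⟩
  · rintro ⟨i, hi, rfl⟩
    interval_cases i
    simp

lemma isAP_of_card_le_two {P : Finset ℤ} (hne : P.Nonempty) (hc : P.card ≤ 2) : IsAP P := by
  have h1 : P.card = 1 ∨ P.card = 2 := by
    have := card_pos.2 hne
    omega
  rcases h1 with h1 | h1
  · obtain ⟨a, rfl⟩ := card_eq_one.1 h1
    exact isAP_singleton a
  · obtain ⟨a, b, hab, rfl⟩ := card_eq_two.1 h1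
    rcases lt_or_gt_of_ne hab with h | h
    · have := isAP_pair' a (b - a) (by omega)
      rwa [show a + (b - a) = b by ring] at this
    · have := isAP_pair' b (a - b) (by omega)
      rw [show b + (a - b) = a by ring] at this
      rwa [pair_comm]

lemma isAP_of_sub {x e : ℤ} (he : 1 ≤ e) {P : Finset ℤ} (hx : x ∈ P)
    (hP : ∀ t ∈ P, t = x - e ∨ t = x ∨ t = x + e) : IsAP P := by
  by_cases h1 : x - e ∈ P ∧ x + e ∈ P
  · have h2 : P = {x - e, (x - e) + e, (x - e) + 2 * e} := by
      ext t
      simp only [mem_insert, mem_singleton]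
      constructor
      · intro ht
        have := hP t ht
        omega
      · rintro (rfl | rfl | rfl)
        · exact h1.1
        · rw [show x - e + e = x by ring]; exact hx
        · rw [show x - e + 2 * e = x + e by ring]; exact h1.2
    rw [h2]
    exact isAP_three _ _ he
  · apply isAP_of_card_le_two ⟨x, hx⟩
    by_cases h2 : x - e ∈ P
    · have h3 : P ⊆ {x - e, x} := by
        intro t ht
        simp only [mem_insert, mem_singleton]
        rcases hP t ht with h | h | h
        · left; exact h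
        · right; exact h
        · exfalso
          apply h1
          exact ⟨h2, by rw [← h]; exact ht⟩
      exact le_trans (card_le_card h3) card_le_two
    · have h3 : P ⊆ {x, x + e} := by
        intro t ht
        simp only [mem_insert, mem_singleton]
        rcases hP t ht with h | h | h
        · exfalso
          apply h2
          rw [← h]; exact ht
        · left; exact h
        · right; exact h
      exact le_trans (card_le_card h3) card_le_two

lemma isAP_seg (x : ℤ) {d : ℕ} (hd : 1 ≤ d) (i j : ℕ) : IsAP (seg x d i j) := by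
  refine ⟨x + (-(i : ℤ)) * d, d, i + j + 1, by omega, by omega, ?_⟩
  ext t
  rw [mem_seg]
  simp only [mem_image, mem_range]
  constructor
  · rintro ⟨k, hk1, hk2, rfl⟩
    refine ⟨(k + i).toNat, by omega, ?_⟩
    rw [Int.toNat_of_nonneg (by omega)]
    ring
  · rintro ⟨k, hk, rfl⟩
    exact ⟨(k : ℤ) - i, by omega, by omega, by ring⟩

lemma card_seg (x : ℤ) {d : ℕ} (hd : 1 ≤ d) (i j : ℕ) : (seg x d i j).card = i + j + 1 := by
  rw [seg, card_image_of_injective, Int.card_Icc]
  · omega
  · intro u v huv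
    have h9 : x + u * d = x + v * d := huv
    have h10 : (u - v) * (d : ℤ) = 0 := by
      have : (u - v) * (d : ℤ) = u * d - v * d := by ring
      omega
    rcases mul_eq_zero.1 h10 with h11 | h11 <;> omega

lemma seg_inter (x : ℤ) {d : ℕ} (hd : 1 ≤ d) (i j i' j' : ℕ) :
    seg x d i j ∩ seg x d i' j' = seg x d (min i i') (min j j') := by
  ext t
  rw [mem_inter, mem_seg, mem_seg, mem_seg]
  constructor
  · rintro ⟨⟨k, h1, h2, h3⟩, ⟨k', h1', h2', h3'⟩⟩
    have hk : k = k' := by
      have h4 : (k - k') * (d : ℤ) = 0 := by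
        have : (k - k') * (d : ℤ) = k * d - k' * d := by ring
        omega
      rcases mul_eq_zero.1 h4 with h5 | h5 <;> omega
    subst hk
    exact ⟨k, by omega, by omega, h3⟩
  · rintro ⟨k, h1, h2, h3⟩
    exact ⟨⟨k, by omega, by omega, h3⟩, ⟨k, by omega, by omega, h3⟩⟩

lemma self_mem_seg (x : ℤ) (d i j : ℕ) : x ∈ seg x d i j :=
  mem_seg.2 ⟨0, by omega, by omega, by simp⟩

/-- different scales -/
lemma seg_inter_ne {x : ℤ} {d d' : ℕ} (hd : 1 ≤ d) (hlt : d < d') {i j i' j' : ℕ}
    (hi : i ≤ 2) (hj : j ≤ 2) (hi' : i' ≤ 2) (hj' : j' ≤ 2) :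
    IsAP (seg x d i j ∩ seg x d' i' j') := by
  apply isAP_of_sub (x := x) (e := 2 * d) (by omega)
  · exact mem_inter.2 ⟨self_mem_seg _ _ _ _, self_mem_seg _ _ _ _⟩
  · intro t ht
    rw [mem_inter, mem_seg, mem_seg] at ht
    obtain ⟨⟨k, h1, h2, h3⟩, ⟨k', h1', h2', h3'⟩⟩ := ht
    have hk : -2 ≤ k ∧ k ≤ 2 := by omega
    have hk' : -2 ≤ k' ∧ k' ≤ 2 := by omega
    have h5 : k * (d : ℤ) = k' * d' := by omega
    obtain ⟨hka, hkb⟩ := hk
    obtain ⟨hka', hkb'⟩ := hk'
    interval_cases k <;> interval_cases k' <;> omega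

/-- a three-point set through `x` inside `{x - 2 d, …, x + 2 d}` -/
lemma three_in_seg {x : ℤ} {d i j : ℕ} (hd : 1 ≤ d) (hi : i ≤ 2) (hj : j ≤ 2) {y z : ℤ}
    (hyz : y < z) (hy : y ≠ x) (hz : z ≠ x) (hex1 : ¬ (y = x - d ∧ z = x + 2 * d))
    (hex2 : ¬ (y = x - 2 * d ∧ z = x + d)) (hys : y ∈ seg x d i j) (hzs : z ∈ seg x d i j) :
    IsAP {x, y, z} := by
  rw [mem_seg] at hys hzs
  obtain ⟨k, h1, h2, h3⟩ := hys
  obtain ⟨l, h1', h2', h3'⟩ := hzs
  have hk : -2 ≤ k ∧ k ≤ 2 := by omega
  have hl : -2 ≤ l ∧ l ≤ 2 := by omega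
  obtain ⟨hka, hkb⟩ := hk
  obtain ⟨hla, hlb⟩ := hl
  have key : ∀ a e : ℤ, 1 ≤ e → (∀ t, (t = x ∨ t = y ∨ t = z) ↔ (t = a ∨ t = a + e ∨ t = a + 2 * e)) →
      IsAP {x, y, z} := by
    intro a e he h
    have : ({x, y, z} : Finset ℤ) = {a, a + e, a + 2 * e} := by
      ext t
      simp only [mem_insert, mem_singleton]
      exact h t
    rw [this]
    exact isAP_three a e he
  interval_cases k <;> interval_cases l <;> first
    | (exfalso; omega)
    | exact key (x - 2 * d) d (by omega) (fun t => by omega)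
    | exact key (x - d) d (by omega) (fun t => by omega)
    | exact key x d (by omega) (fun t => by omega)
    | exact key (x - 2 * d) (2 * d) (by omega) (fun t => by omega)

end Pool.Agent.APInt
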