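import Pool.Agent.APInt.Defs

/-!
Basic facts on arithmetic progressions and on owned pairs.
-/

set_option autoImplicit false

namespace Pool.Agent.APInt

open Finset

lemma isAP_iff (P : Finset ℤ) :
    IsAP P ↔ ∃ a d b : ℤ, 1 ≤ d ∧ a ≤ b ∧ d ∣ b - a ∧
      ∀ t, t ∈ P ↔ (d ∣ t - a ∧ a ≤ t ∧ t ≤ b) := by
  constructor
  · rintro ⟨a, d, l, hd, hl, rfl⟩
    refine ⟨a, d, a + ((l : ℤ) - 1) * d, hd, ?_, ?_, ?_⟩
    · have : (0 : ℤ) ≤ ((l : ℤ) - 1) * d := by
        apply mul_nonneg <;> omega
      omega
    · exact ⟨(l : ℤ) - 1, by ring⟩
    · intro t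
      simp only [mem_image, mem_range]
      constructor
      · rintro ⟨i, hi, rfl⟩
        refine ⟨⟨i, by ring⟩, ?_, ?_⟩
        · have : (0 : ℤ) ≤ (i : ℤ) * d := by positivity
          omega
        · have : (i : ℤ) * d ≤ ((l : ℤ) - 1) * d := by
            apply mul_le_mul_of_nonneg_right <;> omega
          omega
      · rintro ⟨⟨k, hk⟩, h1, h2⟩
        have hk0 : 0 ≤ k := by
          by_contra hneg
          push Not at hneg
          have : d * k < 0 := mul_neg_of_pos_of_neg (by omega) hneg
          omega
        have hkl : k < l := by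
          by_contra hge
          push Not at hge
          have h3 : ((l : ℤ) - 1) * d < k * d := by
            apply mul_lt_mul_of_pos_right <;> omega
          have h4 : d * k = k * d := mul_comm _ _
          omega
        refine ⟨k.toNat, by omega, ?_⟩
        have : ((k.toNat : ℕ) : ℤ) = k := Int.toNat_of_nonneg hk0
        rw [this]
        have h4 : d * k = k * d := mul_comm _ _
        omega
  · rintro ⟨a, d, b, hd, hab, ⟨k, hk⟩, h⟩
    have hk0 : 0 ≤ k := by
      by_contra hneg
      push Not at hneg
      have : d * k < 0 := mul_neg_of_pos_of_neg (by omega) hneg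
      omega
    refine ⟨a, d, k.toNat + 1, hd, by omega, ?_⟩
    ext t
    rw [h t]
    simp only [mem_image, mem_range]
    have hkk : ((k.toNat : ℕ) : ℤ) = k := Int.toNat_of_nonneg hk0
    constructor
    · rintro ⟨⟨m, hm⟩, h1, h2⟩
      have hm0 : 0 ≤ m := by
        by_contra hneg
        push Not at hneg
        have : d * m < 0 := mul_neg_of_pos_of_neg (by omega) hneg
        omega
      have hmk : m ≤ k := by
        by_contra hge
        push Not at hge
        have h3 : d * k < d * m := by
          apply mul_lt_mul_of_pos_left <;> omega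
        omega
      refine ⟨m.toNat, by omega, ?_⟩
      rw [Int.toNat_of_nonneg hm0]
      have h4 : d * m = m * d := mul_comm _ _
      omega
    · rintro ⟨i, hi, rfl⟩
      refine ⟨⟨i, by ring⟩, ?_, ?_⟩
      · have : (0 : ℤ) ≤ (i : ℤ) * d := by positivity
        omega
      · have h5 : (i : ℤ) * d ≤ k * d := by
          apply mul_le_mul_of_nonneg_right <;> omega
        have h4 : d * k = k * d := mul_comm _ _
        omega

lemma IsAP.nonempty {P : Finset ℤ} (h : IsAP P) : P.Nonempty := by
  obtain ⟨a, d, b, hd, hab, hdvd, h⟩ := (isAP_iff P).1 h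
  exact ⟨a, (h a).2 ⟨by simp, le_refl _, hab⟩⟩

/-- closure of progressions: multiples of the gcd between the given points are present -/
lemma IsAP.mem_of_gcd {P : Finset ℤ} (h : IsAP P) {x y z t : ℤ} (hx : x ∈ P) (hy : y ∈ P)
    (hz : z ∈ P) (hdvd : gcd (y - x) (z - x) ∣ t - x)
    (hlo : min x (min y z) ≤ t) (hhi : t ≤ max x (max y z)) : t ∈ P := by
  obtain ⟨a, d, b, hd, hab, hdvd', h⟩ := (isAP_iff P).1 h
  rw [h] at hx hy hz ⊢
  obtain ⟨hx1, hx2, hx3⟩ := hx
  obtain ⟨hy1, hy2, hy3⟩ := hy
  obtain ⟨hz1, hz2, hz3⟩ := hz
  refine ⟨?_, ?_, ?_⟩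
  · have e1 : d ∣ y - x := by
      have := dvd_sub hy1 hx1
      simpa using this
    have e2 : d ∣ z - x := by
      have := dvd_sub hz1 hx1
      simpa using this
    have e3 : d ∣ t - x := dvd_trans (dvd_gcd e1 e2) hdvd
    have := dvd_add e3 hx1
    simpa using this
  · rcases min_choice x (min y z) with h1 | h1
    · omega
    · rcases min_choice y z with h2 | h2 <;> omega
  · rcases max_choice x (max y z) with h1 | h1
    · omega
    · rcases max_choice y z with h2 | h2 <;> omega

/-- A finite set containing `x` which is not a progression has an owned pair. -/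
lemma exists_owned {A : Finset ℤ} {x : ℤ} (hx : x ∈ A) (hA : ¬ IsAP A) :
    ∃ y ∈ A, ∃ z ∈ A, y ≠ x ∧ z ≠ x ∧ y < z ∧
      ∀ P ⊆ A, IsAP P → x ∈ P → y ∈ P → z ∈ P → False := by
  by_contra hcon
  push Not at hcon
  apply hA
  -- the trivial case
  by_cases hne : (A.erase x).Nonempty
  swap
  · rw [not_nonempty_iff_eq_empty] at hne
    have hA1 : A = {x} := by
      rw [← insert_erase hx, hne]
      rfl
    rw [isAP_iff]
    refine ⟨x, 1, x, le_refl _, le_refl _, by simp, ?_⟩
    intro t
    rw [hA1, mem_singleton]
    constructor
    · rintro rfl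
      simp
    · rintro ⟨_, h1, h2⟩
      omega
  obtain ⟨y0, hy0, hmin⟩ := exists_min_image (A.erase x) (fun y => |y - x|) hne
  rw [mem_erase] at hy0
  obtain ⟨hy0x, hy0A⟩ := hy0
  -- existence of a progression through x, y, z
  have key : ∀ z ∈ A, z ≠ x → z ≠ y0 →
      ∃ P ⊆ A, IsAP P ∧ x ∈ P ∧ y0 ∈ P ∧ z ∈ P := by
    intro z hz hzx hzy
    rcases lt_or_gt_of_ne hzy with hlt | hlt
    · obtain ⟨P, h1, h2, h3, h4, h5, _⟩ := hcon z hz y0 hy0A hzx hy0x hlt
      exact ⟨P, h1, h2, h3, h5, h4⟩
    · obtain ⟨P, h1, h2, h3, h4, h5, _⟩ := hcon y0 hy0A z hz hy0x hzx hlt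
      exact ⟨P, h1, h2, h3, h4, h5⟩
  have hg0 : 0 < |y0 - x| := abs_pos.2 (sub_ne_zero.2 hy0x)
  set g := |y0 - x| with hg
  have main : ∀ z ∈ A, g ∣ z - x ∧ ∀ t, g ∣ t - x → min x z ≤ t → t ≤ max x z → t ∈ A := by
    intro z hz
    by_cases hzx : z = x
    · subst hzx
      refine ⟨by simp, ?_⟩
      intro t _ h1 h2
      simp at h1 h2
      have : t = z := by omega
      rw [this]; exact hz
    by_cases hzy : z = y0
    · subst hzy
      refine ⟨by rw [hg, abs_dvd], ?_⟩
      rintro t ⟨k, hk⟩ h1 h2
      -- t between x and z at a multiple of |z - x|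
      have hk' : k = 0 ∨ k = 1 ∨ k = -1 := by
        by_contra hne'
        push Not at hne'
        have : 2 ≤ |k| := by
          rcases abs_cases k with ⟨h, _⟩ | ⟨h, _⟩ <;> omega
        have h3 : |t - x| = g * |k| := by
          rw [hk, abs_mul, hg, abs_abs]
        have h4 : |t - x| ≤ g := by
          rw [hg]
          rcases le_total x z with h5 | h5
          · rw [min_eq_left h5] at h1
            rw [max_eq_right h5] at h2
            rw [abs_of_nonneg (by omega), abs_of_nonneg (by omega)]
            omega
          · rw [min_eq_right h5] at h1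
            rw [max_eq_left h5] at h2
            rw [abs_of_nonpos (by omega), abs_of_nonpos (by omega)]
            omega
        nlinarith
      have h6 : t = x ∨ t = z := by
        rcases le_total x z with h5 | h5
        · rw [min_eq_left h5] at h1
          rw [max_eq_right h5] at h2
          have h7 : g = z - x := by rw [hg, abs_of_nonneg (by omega)]
          rcases hk' with rfl | rfl | rfl
          · left; omega
          · right; omega
          · exfalso; omega
        · rw [min_eq_right h5] at h1
          rw [max_eq_left h5] at h2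
          have h7 : g = -(z - x) := by rw [hg, abs_of_nonpos (by omega)]
          rcases hk' with rfl | rfl | rfl
          · left; omega
          · exfalso; omega
          · right; omega
      rcases h6 with rfl | rfl
      · exact hx
      · exact hz
    obtain ⟨P, hPA, hP, hxP, hyP, hzP⟩ := key z hz hzx hzy
    -- the gcd
    set h := gcd (y0 - x) (z - x) with hh
    have hpos : 0 < h := by
      have h1 : 0 ≤ h := by
        rw [hh, ← Int.coe_gcd]
        exact Int.natCast_nonneg _
      rcases h1.lt_or_eq with h2 | h2
      · exact h2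
      · exfalso
        have : y0 - x = 0 := by
          have h3 : h ∣ y0 - x := gcd_dvd_left _ _
          rw [← h2] at h3
          exact zero_dvd_iff.1 h3
        omega
    have hdl : h ∣ y0 - x := gcd_dvd_left _ _
    have hdg : h ∣ g := by rw [hg]; exact (dvd_abs _ _).2 hdl
    have hle : h ≤ g := Int.le_of_dvd hg0 hdg
    have heq : h = g := by
      by_contra hne'
      have hlt : h < g := lt_of_le_of_ne hle hne'
      -- the point x ± h
      have : ∃ t ∈ A.erase x, |t - x| = h := by
        rcases lt_or_gt_of_ne hy0x with h5 | h5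
        · have h7 : g = -(y0 - x) := by rw [hg, abs_of_nonpos (by omega)]
          refine ⟨x - h, ?_, ?_⟩
          · rw [mem_erase]
            refine ⟨by omega, hPA ?_⟩
            apply hP.mem_of_gcd hxP hyP hzP
            · have : x - h - x = -h := by ring
              rw [this, dvd_neg]
            · refine le_trans (min_le_right _ _) (le_trans (min_le_left _ _) ?_)
              omega
            · exact le_trans (by omega) (le_max_left _ _)
          · have : x - h - x = -h := by ring
            rw [this, abs_neg, abs_of_pos hpos]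
        · have h7 : g = y0 - x := by rw [hg, abs_of_nonneg (by omega)]
          refine ⟨x + h, ?_, ?_⟩
          · rw [mem_erase]
            refine ⟨by omega, hPA ?_⟩
            apply hP.mem_of_gcd hxP hyP hzP
            · have : x + h - x = h := by ring
              rw [this]
            · exact le_trans (min_le_left _ _) (by omega)
            · refine le_trans ?_ (le_trans (le_max_left y0 z) (le_max_right _ _))
              omega
          · have : x + h - x = h := by ring
            rw [this, abs_of_pos hpos]
      obtain ⟨t, ht, hth⟩ := this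
      have h8 : |y0 - x| ≤ |t - x| := hmin t ht
      rw [hth] at h8
      omega
    refine ⟨?_, ?_⟩
    · rw [← heq]; exact gcd_dvd_right _ _
    · intro t ht h1 h2
      apply hPA
      apply hP.mem_of_gcd hxP hyP hzP
      · rw [← hh, heq]; exact ht
      · refine le_trans ?_ h1
        apply le_min (min_le_left _ _)
        exact le_trans (min_le_right _ _) (min_le_right _ _)
      · refine le_trans h2 ?_
        apply max_le (le_max_left _ _)
        exact le_trans (le_max_right _ _) (le_max_right _ _)
  -- conclude
  have hAne : A.Nonempty := ⟨x, hx⟩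
  have hmemmin := A.min'_mem hAne
  have hmemmax := A.max'_mem hAne
  rw [isAP_iff]
  refine ⟨A.min' hAne, g, A.max' hAne, by omega, A.min'_le_max' hAne, ?_, ?_⟩
  · have := dvd_sub (main _ hmemmax).1 (main _ hmemmin).1
    simpa using this
  · intro t
    constructor
    · intro ht
      refine ⟨?_, A.min'_le t ht, A.le_max' t ht⟩
      have := dvd_sub (main _ ht).1 (main _ hmemmin).1
      simpa using this
    · rintro ⟨h1, h2, h3⟩
      have h4 : g ∣ t - x := by
        have := dvd_add h1 (main _ hmemmin).1
        simpa using this
      rcases le_total t x with h5 | h5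
      · apply (main _ hmemmin).2 t h4
        · exact le_trans (min_le_right _ _) h2
        · exact le_trans h5 (le_max_left _ _)
      · apply (main _ hmemmax).2 t h4
        · exact le_trans (min_le_left _ _) h5
        · exact le_trans h3 (le_max_right _ _)

end Pool.Agent.APInt
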