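import Mathlib

/-!
Counting coprime pairs: the combinatorial inequality behind the star theorem.
-/

set_option autoImplicit false

namespace Pool.Agent.APInt

open Finset

/-- non-coprime pairs in `[I] × [J]` -/
def ncSet (I J : ℕ) : Finset (ℕ × ℕ) :=
  ((Ioc 0 I) ×ˢ (Ioc 0 J)).filter (fun p => ¬ Nat.Coprime p.1 p.2)

/-- coprime pairs `a < b` in `[n]` -/
def cpSet (n : ℕ) : Finset (ℕ × ℕ) :=
  ((Ioc 0 n) ×ˢ (Ioc 0 n)).filter (fun p => p.1 < p.2 ∧ Nat.Coprime p.1 p.2)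

lemma two_cpSet (n : ℕ) (hn : 1 ≤ n) :
    2 * (cpSet n).card + (ncSet n n).card + 1 = n ^ 2 := by
  classical
  have h1 : ((Ioc 0 n) ×ˢ (Ioc 0 n)) =
      (cpSet n ∪ (cpSet n).image Prod.swap) ∪ ({(1, 1)} ∪ ncSet n n) := by
    ext ⟨a, b⟩
    simp only [cpSet, ncSet, mem_union, mem_filter, mem_product, mem_Ioc, mem_image,
      mem_singleton, Prod.exists, Prod.swap_prod_mk, Prod.mk.injEq]
    constructor
    · rintro ⟨⟨ha, ha'⟩, hb, hb'⟩
      by_cases hc : Nat.Coprime a b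
      · rcases lt_trichotomy a b with h | h | h
        · left; left
          exact ⟨⟨⟨ha, ha'⟩, hb, hb'⟩, h, hc⟩
        · right; left
          subst h
          rw [Nat.coprime_self] at hc
          exact ⟨hc, hc⟩
        · left; right
          exact ⟨b, a, ⟨⟨⟨hb, hb'⟩, ha, ha'⟩, h, hc.symm⟩, rfl, rfl⟩
      · right; right
        exact ⟨⟨⟨ha, ha'⟩, hb, hb'⟩, hc⟩
    · rintro ((⟨⟨h1, h2⟩, _⟩ | ⟨c, d, ⟨⟨h1, h2⟩, _⟩, rfl, rfl⟩) | (⟨rfl, rfl⟩ | ⟨⟨h1, h2⟩, _⟩))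
      · exact ⟨h1, h2⟩
      · exact ⟨h2, h1⟩
      · exact ⟨⟨by omega, hn⟩, by omega, hn⟩
      · exact ⟨h1, h2⟩
  have h2 : ((Ioc 0 n) ×ˢ (Ioc 0 n)).card = n ^ 2 := by
    rw [card_product, Nat.card_Ioc]; simp [sq]
  rw [h1, card_union_of_disjoint, card_union_of_disjoint, card_union_of_disjoint,
    card_image_of_injective _ Prod.swap_injective, card_singleton] at h2
  · omega
  · rw [disjoint_left]
    rintro ⟨a, b⟩ ha hb
    simp only [mem_singleton, Prod.mk.injEq] at ha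
    simp only [ncSet, mem_filter] at hb
    obtain ⟨rfl, rfl⟩ := ha
    exact hb.2 (by norm_num)
  · rw [disjoint_left]
    rintro ⟨a, b⟩ ha hb
    simp only [cpSet, mem_filter] at ha
    simp only [cpSet, mem_image, mem_filter, Prod.exists, Prod.swap_prod_mk, Prod.mk.injEq] at hb
    obtain ⟨c, d, ⟨_, h3, _⟩, rfl, rfl⟩ := hb
    have := ha.2.1
    omega
  · rw [disjoint_left]
    rintro ⟨a, b⟩ ha hb
    simp only [cpSet, mem_union, mem_image, mem_filter, Prod.exists, Prod.swap_prod_mk,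
      Prod.mk.injEq] at ha
    simp only [ncSet, mem_union, mem_filter, mem_singleton, Prod.mk.injEq] at hb
    rcases ha with ha | ⟨c, d, hcd, rfl, rfl⟩
    · rcases hb with ⟨rfl, rfl⟩ | hb
      · have := ha.2.1
        omega
      · exact hb.2 ha.2.2
    · rcases hb with ⟨rfl, rfl⟩ | hb
      · have := hcd.2.1
        omega
      · exact hb.2 hcd.2.2.symm

lemma pred_le_cpSet (n : ℕ) : n - 1 ≤ (cpSet n).card := by
  classical
  have h : (Ioc 1 n).image (fun b => ((1 : ℕ), b)) ⊆ cpSet n := by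
    intro p hp
    rw [mem_image] at hp
    obtain ⟨b, hb, rfl⟩ := hp
    rw [mem_Ioc] at hb
    simp only [cpSet, mem_filter, mem_product, mem_Ioc]
    exact ⟨⟨⟨by omega, by omega⟩, by omega, by omega⟩, by omega, Nat.coprime_one_left b⟩
  have h2 := card_le_card h
  rw [card_image_of_injective, Nat.card_Ioc] at h2
  · exact h2
  · intro a b hab
    simpa using hab

lemma ncSet_card_le (I J : ℕ) (M : Finset ℕ)
    (hM : ∀ i j, 0 < i → i ≤ I → 0 < j → j ≤ J → ¬ Nat.Coprime i j → ∃ m ∈ M, m ∣ i ∧ m ∣ j) :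
    (ncSet I J).card ≤ ∑ m ∈ M, (I / m) * (J / m) := by
  classical
  have h : ncSet I J ⊆ M.biUnion (fun m => ((Ioc 0 I).filter (fun x => m ∣ x)) ×ˢ
      ((Ioc 0 J).filter (fun x => m ∣ x))) := by
    rintro ⟨i, j⟩ hp
    simp only [ncSet, mem_filter, mem_product, mem_Ioc] at hp
    obtain ⟨⟨⟨hi, hi'⟩, hj, hj'⟩, hc⟩ := hp
    obtain ⟨m, hm, h1, h2⟩ := hM i j hi hi' hj hj' hc
    simp only [mem_biUnion, mem_filter, mem_product, mem_Ioc]
    exact ⟨m, hm, ⟨⟨hi, hi'⟩, h1⟩, ⟨hj, hj'⟩, h2⟩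
  refine le_trans (card_le_card h) (le_trans card_biUnion_le ?_)
  apply sum_le_sum
  intro m _
  rw [card_product, Nat.Ioc_filter_dvd_card_eq_div, Nat.Ioc_filter_dvd_card_eq_div]

lemma ncSet_sum_le (I J : ℕ) (M : Finset ℕ)
    (hM : ∀ i j, 0 < i → i ≤ I + J → 0 < j → j ≤ I + J → ¬ Nat.Coprime i j →
      ∃ m ∈ M, m ∣ i ∧ m ∣ j) :
    (ncSet I I).card + 2 * (ncSet I J).card + (ncSet J J).card ≤
      ∑ m ∈ M, (I / m + J / m) ^ 2 := by
  have h1 := ncSet_card_le I I M (fun i j h1 h2 h3 h4 h5 =>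
    hM i j h1 (by omega) h3 (by omega) h5)
  have h2 := ncSet_card_le I J M (fun i j h1 h2 h3 h4 h5 =>
    hM i j h1 (by omega) h3 (by omega) h5)
  have h3 := ncSet_card_le J J M (fun i j h1 h2 h3 h4 h5 =>
    hM i j h1 (by omega) h3 (by omega) h5)
  have h4 : ∑ m ∈ M, (I / m + J / m) ^ 2 = ∑ m ∈ M, (I / m) * (I / m) +
      2 * ∑ m ∈ M, (I / m) * (J / m) + ∑ m ∈ M, (J / m) * (J / m) := by
    rw [mul_sum, ← sum_add_distrib, ← sum_add_distrib]
    apply sum_congr rfl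
    intro m _
    ring
  omega

/-- the primes up to `67` -/
def smallPrimes : Finset ℕ :=
  {2, 3, 5, 7, 11, 13, 17, 19, 23, 29, 31, 37, 41, 43, 47, 53, 59, 61, 67}

lemma smallPrimes_spec : ∀ p < 69, p.Prime → p ∈ smallPrimes := by decide +kernel

lemma small_check : ∀ I < 67, ∀ J < 67, (2 ≤ I ∧ 2 ≤ J ∧ I + J ≤ 68 ∧ ¬ (I = 6 ∧ J = 6)) →
    ∑ m ∈ smallPrimes, (I / m + J / m) ^ 2 + 2 * (I + J) ≤ I ^ 2 + J ^ 2 + 4 := by
  decide +kernel

lemma six_check : (ncSet 6 6).card = 13 := by decide +kernel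

lemma tail_sum (K : ℕ) : ∑ k ∈ range K, (1 : ℝ) / (2 * (k : ℝ) + 11) ^ 2 ≤
    1 / 20 - 1 / (2 * (2 * (K : ℝ) + 10)) := by
  induction K with
  | zero => norm_num
  | succ K ih =>
    rw [sum_range_succ]
    have h1 : (1 : ℝ) / (2 * K + 11) ^ 2 ≤ 1 / (2 * (2 * K + 10)) - 1 / (2 * (2 * K + 12)) := by
      have h2 : (1 : ℝ) / (2 * (2 * K + 10)) - 1 / (2 * (2 * K + 12)) =
          1 / ((2 * K + 10) * (2 * K + 12)) := by
        have : (2 * (K : ℝ) + 10) ≠ 0 := by positivity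
        have : (2 * (K : ℝ) + 12) ≠ 0 := by positivity
        field_simp
        ring
      rw [h2]
      apply one_div_le_one_div_of_le
      · positivity
      · nlinarith
    have h3 : (2 * (((K + 1 : ℕ)) : ℝ) + 10) = 2 * K + 12 := by push_cast; ring
    rw [h3]
    linarith

lemma large_check (I J : ℕ) (h : 69 ≤ I + J) :
    (ncSet I I).card + 2 * (ncSet I J).card + (ncSet J J).card + 2 * (I + J) ≤
      I ^ 2 + J ^ 2 + 4 := by
  classical
  set s := I + J with hs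
  set M : Finset ℕ := {2, 3, 5, 7} ∪ (range s).image (fun k : ℕ => 2 * k + 11) with hM
  have h1 := ncSet_sum_le I J M (by
    intro i j hi hi' hj hj' hc
    obtain ⟨p, hp, hpi, hpj⟩ := Nat.Prime.not_coprime_iff_dvd.1 hc
    refine ⟨p, ?_, hpi, hpj⟩
    rw [hM, mem_union]
    by_cases hp7 : p ≤ 10
    · left
      have : ∀ q ≤ 10, q.Prime → q ∈ ({2, 3, 5, 7} : Finset ℕ) := by decide +kernel
      exact this p hp7 hp
    · right
      rw [mem_image]
      rcases hp.eq_two_or_odd' with h2 | ⟨k, hk⟩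
      · omega
      · refine ⟨k - 5, ?_, by omega⟩
        rw [mem_range]
        have := Nat.le_of_dvd hi hpi
        omega)
  have h2 : ((∑ m ∈ M, (I / m + J / m) ^ 2 : ℕ) : ℝ) ≤ (s : ℝ) ^ 2 * ∑ m ∈ M, (1 : ℝ) / (m : ℝ) ^ 2 := by
    rw [mul_sum]
    push_cast
    apply sum_le_sum
    intro m hm
    have hm0 : 0 < m := by
      rw [hM, mem_union, mem_image] at hm
      rcases hm with hm | ⟨k, _, hk⟩
      · simp only [mem_insert, mem_singleton] at hm
        omega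
      · omega
    have h3 : ((I / m : ℕ) : ℝ) + ((J / m : ℕ) : ℝ) ≤ s / m := by
      have h4 : ((I / m : ℕ) : ℝ) ≤ I / m := Nat.cast_div_le
      have h5 : ((J / m : ℕ) : ℝ) ≤ J / m := Nat.cast_div_le
      rw [hs]
      push_cast
      rw [add_div]
      linarith
    have h6 : (0 : ℝ) ≤ ((I / m : ℕ) : ℝ) + ((J / m : ℕ) : ℝ) := by positivity
    calc (((I / m : ℕ) : ℝ) + ((J / m : ℕ) : ℝ)) ^ 2 ≤ ((s : ℝ) / m) ^ 2 :=
          pow_le_pow_left₀ h6 h3 2
      _ = (s : ℝ) ^ 2 * (1 / (m : ℝ) ^ 2) := by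
          rw [div_pow]; ring
  have h3 : ∑ m ∈ M, (1 : ℝ) / (m : ℝ) ^ 2 ≤ 20794 / 44100 := by
    have h4 : ∑ m ∈ M, (1 : ℝ) / (m : ℝ) ^ 2 ≤ ∑ m ∈ ({2, 3, 5, 7} : Finset ℕ), (1 : ℝ) / (m : ℝ) ^ 2 +
        ∑ m ∈ (range s).image (fun k : ℕ => 2 * k + 11), (1 : ℝ) / (m : ℝ) ^ 2 := by
      rw [hM, ← sum_union_inter]
      have : 0 ≤ ∑ m ∈ ({2, 3, 5, 7} : Finset ℕ) ∩ (range s).image (fun k : ℕ => 2 * k + 11),
          (1 : ℝ) / (m : ℝ) ^ 2 := sum_nonneg (fun i _ => by positivity)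
      linarith
    have h5 : ∑ m ∈ (range s).image (fun k : ℕ => 2 * k + 11), (1 : ℝ) / (m : ℝ) ^ 2 =
        ∑ k ∈ range s, (1 : ℝ) / (2 * (k : ℝ) + 11) ^ 2 := by
      rw [sum_image]
      · apply sum_congr rfl
        intro k _
        push_cast
        rfl
      · intro a _ b _ hab
        have hab' : 2 * a + 11 = 2 * b + 11 := hab
        omega
    have h6 := tail_sum s
    have h7 : (0 : ℝ) ≤ 1 / (2 * (2 * (s : ℝ) + 10)) := by positivity
    have h8 : ∑ m ∈ ({2, 3, 5, 7} : Finset ℕ), (1 : ℝ) / (m : ℝ) ^ 2 = 1 / 4 + 1 / 9 + 1 / 25 + 1 / 49 := by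
      rw [sum_insert (by decide), sum_insert (by decide), sum_insert (by decide), sum_singleton]
      norm_num
    rw [h5] at h4
    rw [h8] at h4
    have h9 : (1 : ℝ) / 4 + 1 / 9 + 1 / 25 + 1 / 49 + 1 / 20 = 20794 / 44100 := by norm_num
    linarith
  have h4 : (((ncSet I I).card + 2 * (ncSet I J).card + (ncSet J J).card : ℕ) : ℝ) ≤
      (s : ℝ) ^ 2 * (20794 / 44100) := by
    refine le_trans (Nat.cast_le.2 h1) (le_trans h2 ?_)
    apply mul_le_mul_of_nonneg_left h3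
    positivity
  have h5 : (69 : ℝ) ≤ s := by exact_mod_cast h
  have h6 : (s : ℝ) ^ 2 ≤ 2 * ((I : ℝ) ^ 2 + (J : ℝ) ^ 2) := by
    rw [hs]; push_cast
    nlinarith [sq_nonneg ((I : ℝ) - J)]
  have h7 : (((ncSet I I).card + 2 * (ncSet I J).card + (ncSet J J).card + 2 * s : ℕ) : ℝ) ≤
      ((I ^ 2 + J ^ 2 + 4 : ℕ) : ℝ) := by
    push_cast at h4 ⊢
    nlinarith
  exact_mod_cast h7

lemma nc_ineq (I J : ℕ) (hI : 2 ≤ I) (hJ : 2 ≤ J) :
    (ncSet I I).card + 2 * (ncSet I J).card + (ncSet J J).card + 2 * (I + J) ≤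
      I ^ 2 + J ^ 2 + 4 := by
  by_cases h : 69 ≤ I + J
  · exact large_check I J h
  by_cases h6 : I = 6 ∧ J = 6
  · obtain ⟨rfl, rfl⟩ := h6
    rw [six_check]
    norm_num
  · have h1 := small_check I (by omega) J (by omega) ⟨hI, hJ, by omega, h6⟩
    have h2 := ncSet_sum_le I J smallPrimes (by
      intro i j hi hi' hj hj' hc
      obtain ⟨p, hp, hpi, hpj⟩ := Nat.Prime.not_coprime_iff_dvd.1 hc
      refine ⟨p, smallPrimes_spec p ?_ hp, hpi, hpj⟩
      have := Nat.le_of_dvd hi hpi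
      omega)
    omega

lemma nc_ineq' (I J : ℕ) (hI : 2 ≤ I) (hJ : 2 ≤ J) :
    (ncSet I J).card + I + J ≤ (cpSet I).card + (cpSet J).card + 3 := by
  have h1 := nc_ineq I J hI hJ
  have h2 := two_cpSet I (by omega)
  have h3 := two_cpSet J (by omega)
  omega

end Pool.Agent.APInt
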