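import Pool.Agent.APInt.Comb

/-!
Coprime endpoint pairs of a finite set of centred progressions.
-/

set_option autoImplicit false

namespace Pool.Agent.APInt

open Finset

/-- the pairs `a < b` of nonzero coprime integers below a member of `R` -/
def cop (R : Finset (ℕ × ℕ)) : Finset (ℤ × ℤ) :=
  (R.filter (fun p => 0 < p.1 ∧ 0 < p.2 ∧ Nat.Coprime p.1 p.2)).image
      (fun p => (-(p.1 : ℤ), (p.2 : ℤ))) ∪
    ((cpSet (R.sup Prod.snd)).image (fun p => ((p.1 : ℤ), (p.2 : ℤ))) ∪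
      (cpSet (R.sup Prod.fst)).image (fun p => (-(p.2 : ℤ), -(p.1 : ℤ))))

lemma exists_fst {R : Finset (ℕ × ℕ)} (h : R.Nonempty) : ∃ p ∈ R, p.1 = R.sup Prod.fst := by
  obtain ⟨p, hp, h1⟩ := exists_mem_eq_sup R h Prod.fst
  exact ⟨p, hp, h1.symm⟩

lemma exists_snd {R : Finset (ℕ × ℕ)} (h : R.Nonempty) : ∃ p ∈ R, p.2 = R.sup Prod.snd := by
  obtain ⟨p, hp, h1⟩ := exists_mem_eq_sup R h Prod.snd
  exact ⟨p, hp, h1.symm⟩

lemma mem_cop {R : Finset (ℕ × ℕ)} {a b : ℤ} (h : (a, b) ∈ cop R) :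
    a < b ∧ a ≠ 0 ∧ b ≠ 0 ∧ Int.gcd a b = 1 ∧ ∃ p ∈ R, -(p.1 : ℤ) ≤ a ∧ b ≤ (p.2 : ℤ) := by
  simp only [cop, mem_union, mem_image, mem_filter, Prod.exists, Prod.mk.injEq] at h
  rcases h with ⟨i, j, ⟨hR, hi, hj, hc⟩, rfl, rfl⟩ | ⟨i, j, hij, rfl, rfl⟩ | ⟨i, j, hij, rfl, rfl⟩
  · refine ⟨by omega, by omega, by omega, ?_, (i, j), hR, le_refl _, le_refl _⟩
    rw [Int.neg_gcd, Int.gcd_natCast_natCast]
    exact hc
  · simp only [cpSet, mem_filter, mem_product, mem_Ioc] at hij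
    obtain ⟨⟨⟨hi, hi'⟩, hj, hj'⟩, hlt, hc⟩ := hij
    have hne : R.Nonempty := by
      by_contra hcon
      rw [not_nonempty_iff_eq_empty] at hcon
      subst hcon
      simp at hi'
      omega
    obtain ⟨p, hp, hp2⟩ := exists_snd hne
    refine ⟨by omega, by omega, by omega, ?_, p, hp, by omega, by rw [hp2]; omega⟩
    rw [Int.gcd_natCast_natCast]
    exact hc
  · simp only [cpSet, mem_filter, mem_product, mem_Ioc] at hij
    obtain ⟨⟨⟨hi, hi'⟩, hj, hj'⟩, hlt, hc⟩ := hij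
    have hne : R.Nonempty := by
      by_contra hcon
      rw [not_nonempty_iff_eq_empty] at hcon
      subst hcon
      simp at hi'
      omega
    obtain ⟨p, hp, hp2⟩ := exists_fst hne
    refine ⟨by omega, by omega, by omega, ?_, p, hp, by rw [hp2]; omega, by omega⟩
    rw [Int.neg_gcd, Int.gcd_neg, Int.gcd_natCast_natCast]
    exact hc.symm

lemma card_cop (R : Finset (ℕ × ℕ)) :
    (cop R).card = (R.filter (fun p => 0 < p.1 ∧ 0 < p.2 ∧ Nat.Coprime p.1 p.2)).card +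
      ((cpSet (R.sup Prod.snd)).card + (cpSet (R.sup Prod.fst)).card) := by
  classical
  rw [cop, card_union_of_disjoint, card_union_of_disjoint, card_image_of_injective,
    card_image_of_injective, card_image_of_injective]
  · rintro ⟨a, b⟩ ⟨c, d⟩ h
    simp only [Prod.mk.injEq] at h ⊢
    omega
  · rintro ⟨a, b⟩ ⟨c, d⟩ h
    simp only [Prod.mk.injEq] at h ⊢
    omega
  · rintro ⟨a, b⟩ ⟨c, d⟩ h
    simp only [Prod.mk.injEq] at h ⊢
    omega
  · rw [disjoint_left]
    rintro ⟨a, b⟩ h1 h2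
    simp only [cpSet, mem_image, mem_filter, mem_product, mem_Ioc, Prod.exists,
      Prod.mk.injEq] at h1 h2
    obtain ⟨i, j, hij, rfl, rfl⟩ := h1
    obtain ⟨i', j', hij', h3, h4⟩ := h2
    omega
  · rw [disjoint_left]
    rintro ⟨a, b⟩ h1 h2
    simp only [cpSet, mem_union, mem_image, mem_filter, mem_product, mem_Ioc, Prod.exists,
      Prod.mk.injEq] at h1 h2
    obtain ⟨i, j, hij, rfl, rfl⟩ := h1
    rcases h2 with ⟨i', j', hij', h3, h4⟩ | ⟨i', j', hij', h3, h4⟩
    · omega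
    · omega

lemma card_le_cop (R : Finset (ℕ × ℕ)) (hR : ∀ p ∈ R, 2 ≤ p.1 + p.2) :
    R.card ≤ (cop R).card + if (2, 2) ∈ R then 1 else 0 := by
  classical
  set I := R.sup Prod.fst with hI
  set J := R.sup Prod.snd with hJ
  set C := R.filter (fun p => 0 < p.1 ∧ 0 < p.2 ∧ Nat.Coprime p.1 p.2) with hC
  have hle1 : ∀ p ∈ R, p.1 ≤ I := fun p hp => le_sup (f := Prod.fst) hp
  have hle2 : ∀ p ∈ R, p.2 ≤ J := fun p hp => le_sup (f := Prod.snd) hp
  set A1 : Finset (ℕ × ℕ) := (Ioc 1 I).image (fun i => (i, 0)) with hA1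
  set A2 : Finset (ℕ × ℕ) := (Ioc 1 J).image (fun j => (0, j)) with hA2
  have hA1c : A1.card ≤ I - 1 := le_trans card_image_le (by rw [Nat.card_Ioc])
  have hA2c : A2.card ≤ J - 1 := le_trans card_image_le (by rw [Nat.card_Ioc])
  set D := R.filter (fun p => 0 < p.1 ∧ 0 < p.2 ∧ ¬ Nat.Coprime p.1 p.2) with hD
  have hsub : R ⊆ C ∪ (D ∪ (A1 ∪ A2)) := by
    rintro ⟨i, j⟩ hp
    have h1 := hle1 _ hp
    have h2 := hle2 _ hp
    have h3 := hR _ hp
    simp only at h1 h2 h3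
    simp only [hC, hD, hA1, hA2, mem_union, mem_filter, mem_image, mem_Ioc, Prod.mk.injEq]
    by_cases hi : 0 < i
    · by_cases hj : 0 < j
      · by_cases hc : Nat.Coprime i j
        · left; exact ⟨hp, hi, hj, hc⟩
        · right; left; exact ⟨hp, hi, hj, hc⟩
      · right; right; left
        exact ⟨i, ⟨by omega, h1⟩, rfl, by omega⟩
    · right; right; right
      exact ⟨j, ⟨by omega, h2⟩, by omega, rfl⟩
  have hcard : R.card ≤ C.card + (D.card + ((I - 1) + (J - 1))) := by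
    refine le_trans (card_le_card hsub) (le_trans (card_union_le _ _) ?_)
    have := card_union_le D (A1 ∪ A2)
    have := card_union_le A1 A2
    omega
  rw [card_cop, ← hC, ← hI, ← hJ]
  have hDsub : D ⊆ ncSet I J := by
    intro p hp
    rw [hD, mem_filter] at hp
    simp only [ncSet, mem_filter, mem_product, mem_Ioc]
    exact ⟨⟨⟨hp.2.1, hle1 p hp.1⟩, hp.2.2.1, hle2 p hp.1⟩, hp.2.2.2⟩
  have hpI := pred_le_cpSet I
  have hpJ := pred_le_cpSet J
  by_cases h2 : 2 ≤ I ∧ 2 ≤ J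
  · have h22 : ((2, 2) : ℕ × ℕ) ∈ ncSet I J := by
      simp only [ncSet, mem_filter, mem_product, mem_Ioc]
      exact ⟨⟨⟨by norm_num, h2.1⟩, by norm_num, h2.2⟩, by norm_num⟩
    have hineq := nc_ineq' I J h2.1 h2.2
    split_ifs with h
    · have := card_le_card hDsub
      omega
    · have h3 : D ⊆ (ncSet I J).erase (2, 2) := by
        intro p hp
        rw [mem_erase]
        refine ⟨?_, hDsub hp⟩
        rintro rfl
        rw [hD, mem_filter] at hp
        exact h hp.1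
      have h4 := card_le_card h3
      rw [card_erase_of_mem h22] at h4
      have h5 : 0 < (ncSet I J).card := card_pos.2 ⟨_, h22⟩
      omega
  · have hD0 : D = ∅ := by
      rw [eq_empty_iff_forall_notMem]
      intro p hp
      have h3 := hDsub hp
      simp only [ncSet, mem_filter, mem_product, mem_Ioc] at h3
      obtain ⟨⟨⟨h4, h5⟩, h6, h7⟩, h8⟩ := h3
      apply h8
      have : p.1 = 1 ∨ p.2 = 1 := by omega
      rcases this with h9 | h9
      · rw [h9]; exact Nat.coprime_one_left _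
      · rw [h9]; exact Nat.coprime_one_right _
    rw [hD0, card_empty] at hcard
    omega

end Pool.Agent.APInt
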