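import Mathlib

/-!
Arithmetic progressions and admissible families of subsets of `{1, …, N}`.
-/

set_option autoImplicit false

namespace Pool.Agent.APInt

/-- `P` is a (finite, nonempty) arithmetic progression `{a, a + d, …, a + (l - 1) d}` with
`d ≥ 1` and `l ≥ 1` terms. -/
def IsAP (P : Finset ℤ) : Prop :=
  ∃ a d : ℤ, ∃ l : ℕ, 1 ≤ d ∧ 1 ≤ l ∧
    P = (Finset.range l).image (fun i : ℕ => a + (i : ℤ) * d)

/-- A finite family `F` of subsets of `{1, …, N}` in which any two different members meet in a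
(nonempty) arithmetic progression. -/
def Admissible (N : ℕ) (F : Finset (Finset ℤ)) : Prop :=
  (∀ A ∈ F, A ⊆ Finset.Icc (1 : ℤ) N) ∧ ∀ A ∈ F, ∀ B ∈ F, A ≠ B → IsAP (A ∩ B)

end Pool.Agent.APInt
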