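import Pool.Agent.APInt.Lower

/-!
The extremal family with a common element.
-/

set_option autoImplicit false

namespace Pool.Agent.APInt

open Finset

/-- the two kinds of excluded pairs -/
def Excl (x : ℤ) (D : ℕ) (p : ℤ × ℤ) : Prop :=
  ∃ d : ℕ, d ∈ Icc 1 D ∧
    ((p.1 = x - d ∧ p.2 = x + 2 * d) ∨ (p.1 = x - 2 * d ∧ p.2 = x + d))

/-- the pairs of elements different from `x` -/
noncomputable def prs (N : ℕ) (x : ℤ) : Finset (ℤ × ℤ) :=
  (((Icc (1 : ℤ) N).erase x) ×ˢ ((Icc (1 : ℤ) N).erase x)).filter (fun p => p.1 < p.2)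

open Classical in
/-- the extremal family -/
noncomputable def starFam (N : ℕ) (x : ℤ) (D : ℕ) : Finset (Finset ℤ) :=
  (Icc (1 : ℤ) N).image (fun y => {x, y}) ∪
    (((prs N x).filter (fun p => ¬ Excl x D p)).image (fun p => {x, p.1, p.2}) ∪
      ((Icc 1 D).image (fun d => seg x d 1 2) ∪ ((Icc 1 D).image (fun d => seg x d 2 1) ∪
        (Icc 1 D).image (fun d => seg x d 2 2))))

lemma mem_starFam {N : ℕ} {x : ℤ} {D : ℕ} {A : Finset ℤ} (h : A ∈ starFam N x D) :
    (∃ y ∈ Icc (1 : ℤ) N, A = {x, y}) ∨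
    (∃ y ∈ Icc (1 : ℤ) N, ∃ z ∈ Icc (1 : ℤ) N, y < z ∧ y ≠ x ∧ z ≠ x ∧ ¬ Excl x D (y, z) ∧
      A = {x, y, z}) ∨
    (∃ d ∈ Icc 1 D, ∃ i ≤ 2, ∃ j ≤ 2, A = seg x d i j) := by
  classical
  simp only [starFam, prs, mem_union, mem_image, mem_filter, mem_product, mem_erase,
    Prod.exists] at h
  rcases h with ⟨y, hy, rfl⟩ | ⟨y, z, ⟨⟨⟨⟨h1, h2⟩, h3, h4⟩, h5⟩, h6⟩, rfl⟩ | ⟨d, hd, rfl⟩ |
    ⟨d, hd, rfl⟩ | ⟨d, hd, rfl⟩
  · left; exact ⟨y, hy, rfl⟩
  · right; left
    exact ⟨y, h2, z, h4, h5, h1, h3, h6, rfl⟩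
  · right; right; exact ⟨d, hd, 1, by norm_num, 2, by norm_num, rfl⟩
  · right; right; exact ⟨d, hd, 2, by norm_num, 1, by norm_num, rfl⟩
  · right; right; exact ⟨d, hd, 2, by norm_num, 2, by norm_num, rfl⟩

lemma x_mem_starFam {N : ℕ} {x : ℤ} {D : ℕ} {A : Finset ℤ} (h : A ∈ starFam N x D) : x ∈ A := by
  rcases mem_starFam h with ⟨y, hy, rfl⟩ | ⟨y, hy, z, hz, _, _, _, _, rfl⟩ |
    ⟨d, hd, i, hi, j, hj, rfl⟩
  · simp
  · simp
  · exact self_mem_seg _ _ _ _

lemma starFam_aux {N : ℕ} {x : ℤ} {D : ℕ} {A B : Finset ℤ}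
    (hA : ∃ y ∈ Icc (1 : ℤ) N, ∃ z ∈ Icc (1 : ℤ) N, y < z ∧ y ≠ x ∧ z ≠ x ∧
      ¬ Excl x D (y, z) ∧ A = {x, y, z})
    (hB : ∃ d ∈ Icc 1 D, ∃ i ≤ 2, ∃ j ≤ 2, B = seg x d i j) : IsAP (A ∩ B) := by
  classical
  obtain ⟨y, hy, z, hz, hyz, hyx, hzx, hex, rfl⟩ := hA
  obtain ⟨d, hd, i, hi, j, hj, rfl⟩ := hB
  have hxB := self_mem_seg x d i j
  by_cases h1 : y ∈ seg x d i j ∧ z ∈ seg x d i j
  · have h2 : {x, y, z} ∩ seg x d i j = {x, y, z} := by
      rw [inter_eq_left]
      intro t ht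
      simp only [mem_insert, mem_singleton] at ht
      rcases ht with rfl | rfl | rfl
      · exact hxB
      · exact h1.1
      · exact h1.2
    rw [h2]
    apply three_in_seg (mem_Icc.1 hd).1 hi hj hyz hyx hzx _ _ h1.1 h1.2
    · intro h3
      exact hex ⟨d, hd, Or.inl h3⟩
    · intro h3
      exact hex ⟨d, hd, Or.inr h3⟩
  · apply isAP_of_card_le_two ⟨x, mem_inter.2 ⟨by simp, hxB⟩⟩
    by_cases h2 : y ∈ seg x d i j
    · have h3 : {x, y, z} ∩ seg x d i j ⊆ {x, y} := by
        intro t ht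
        simp only [mem_inter, mem_insert, mem_singleton] at ht ⊢
        obtain ⟨ht1 | ht1 | ht1, ht2⟩ := ht
        · left; exact ht1
        · right; exact ht1
        · exfalso
          subst ht1
          exact h1 ⟨h2, ht2⟩
      exact le_trans (card_le_card h3) card_le_two
    · have h3 : {x, y, z} ∩ seg x d i j ⊆ {x, z} := by
        intro t ht
        simp only [mem_inter, mem_insert, mem_singleton] at ht ⊢
        obtain ⟨ht1 | ht1 | ht1, ht2⟩ := ht
        · left; exact ht1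
        · exfalso
          subst ht1
          exact h2 ht2
        · right; exact ht1
      exact le_trans (card_le_card h3) card_le_two

lemma starFam_inter {N : ℕ} {x : ℤ} {D : ℕ} {A B : Finset ℤ} (hA : A ∈ starFam N x D)
    (hB : B ∈ starFam N x D) (hAB : A ≠ B) : IsAP (A ∩ B) := by
  classical
  have hxA := x_mem_starFam hA
  have hxB := x_mem_starFam hB
  have hne : (A ∩ B).Nonempty := ⟨x, mem_inter.2 ⟨hxA, hxB⟩⟩
  rcases mem_starFam hA with ⟨y, hy, rfl⟩ | hA' | hA'
  · apply isAP_of_card_le_two hne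
    exact le_trans (card_le_card inter_subset_left) card_le_two
  · rcases mem_starFam hB with ⟨y, hy, rfl⟩ | hB' | hB'
    · apply isAP_of_card_le_two hne
      exact le_trans (card_le_card inter_subset_right) card_le_two
    · apply isAP_of_card_le_two hne
      obtain ⟨y, hy, z, hz, hyz, hyx, hzx, hex, rfl⟩ := hA'
      obtain ⟨y', hy', z', hz', hyz', hyx', hzx', hex', rfl⟩ := hB'
      by_contra hcon
      have hc1 : ({x, y, z} : Finset ℤ).card ≤ 3 := card_le_three
      have hc2 : ({x, y', z'} : Finset ℤ).card ≤ 3 := card_le_three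
      have e1 : {x, y, z} ∩ {x, y', z'} = ({x, y, z} : Finset ℤ) :=
        eq_of_subset_of_card_le inter_subset_left (by omega)
      have e2 : {x, y, z} ∩ {x, y', z'} = ({x, y', z'} : Finset ℤ) :=
        eq_of_subset_of_card_le inter_subset_right (by omega)
      exact hAB (e1.symm.trans e2)
    · exact starFam_aux hA' hB'
  · rcases mem_starFam hB with ⟨y, hy, rfl⟩ | hB' | hB'
    · apply isAP_of_card_le_two hne
      exact le_trans (card_le_card inter_subset_right) card_le_two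
    · rw [inter_comm]
      exact starFam_aux hB' hA'
    · obtain ⟨d, hd, i, hi, j, hj, rfl⟩ := hA'
      obtain ⟨d', hd', i', hi', j', hj', rfl⟩ := hB'
      rcases lt_trichotomy d d' with h | h | h
      · exact seg_inter_ne (mem_Icc.1 hd).1 h hi hj hi' hj'
      · subst h
        rw [seg_inter x (mem_Icc.1 hd).1]
        exact isAP_seg x (mem_Icc.1 hd).1 _ _
      · rw [inter_comm]
        exact seg_inter_ne (mem_Icc.1 hd').1 h hi' hj' hi hj

lemma starFam_subset {N : ℕ} {x : ℤ} {D : ℕ} (hx : x ∈ Icc (1 : ℤ) N) (h1 : 2 * (D : ℤ) + 1 ≤ x)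
    (h2 : x + 2 * D ≤ N) {A : Finset ℤ} (hA : A ∈ starFam N x D) : A ⊆ Icc (1 : ℤ) N := by
  rcases mem_starFam hA with ⟨y, hy, rfl⟩ | ⟨y, hy, z, hz, _, _, _, _, rfl⟩ |
    ⟨d, hd, i, hi, j, hj, rfl⟩
  · intro t ht
    simp only [mem_insert, mem_singleton] at ht
    rcases ht with rfl | rfl
    · exact hx
    · exact hy
  · intro t ht
    simp only [mem_insert, mem_singleton] at ht
    rcases ht with rfl | rfl | rfl
    · exact hx
    · exact hy
    · exact hz
  · intro t ht
    rw [mem_seg] at ht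
    obtain ⟨k, hk1, hk2, rfl⟩ := ht
    have hd' := mem_Icc.1 hd
    have h3 : -2 ≤ k ∧ k ≤ 2 := by omega
    obtain ⟨h4, h5⟩ := h3
    rw [mem_Icc]
    interval_cases k <;> omega

lemma seg_top_le {x : ℤ} {d d' i j : ℕ} (hj : 1 ≤ j) (h : seg x d i j = seg x d' i j) :
    d ≤ d' := by
  have h1 : x + (j : ℤ) * d ∈ seg x d i j := mem_seg.2 ⟨j, by omega, le_refl _, rfl⟩
  rw [h, mem_seg] at h1
  obtain ⟨k, hk1, hk2, hk3⟩ := h1
  have h2 : k * (d' : ℤ) ≤ j * d' := mul_le_mul_of_nonneg_right hk2 (by omega)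
  have h3 : (j : ℤ) * d ≤ j * d' := by omega
  have h4 : (d : ℤ) ≤ d' := le_of_mul_le_mul_left h3 (by omega)
  omega

lemma seg_inj {x : ℤ} {i j : ℕ} (hj : 1 ≤ j) :
    Function.Injective (fun d : ℕ => seg x d i j) := by
  intro d d' h
  have h1 := seg_top_le hj h
  have h2 := seg_top_le hj h.symm
  omega

lemma card_starFam {N : ℕ} {x : ℤ} {D : ℕ} (hx : x ∈ Icc (1 : ℤ) N) (h1 : 2 * (D : ℤ) + 1 ≤ x)
    (h2 : x + 2 * D ≤ N) : N.choose 2 + 1 + D ≤ (starFam N x D).card := by
  classical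
  have hxN := mem_Icc.1 hx
  set E1 : Finset (Finset ℤ) := (Icc (1 : ℤ) N).image (fun y => {x, y}) with hE1
  set E2 : Finset (Finset ℤ) :=
    ((prs N x).filter (fun p => ¬ Excl x D p)).image (fun p => {x, p.1, p.2}) with hE2
  set E3 : Finset (Finset ℤ) := (Icc 1 D).image (fun d => seg x d 1 2) with hE3
  set E4 : Finset (Finset ℤ) := (Icc 1 D).image (fun d => seg x d 2 1) with hE4
  set E5 : Finset (Finset ℤ) := (Icc 1 D).image (fun d => seg x d 2 2) with hE5
  have hdef : starFam N x D = E1 ∪ (E2 ∪ (E3 ∪ (E4 ∪ E5))) := by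
    rw [hE1, hE2, hE3, hE4, hE5, starFam]
  have c1 : E1.card = N := by
    rw [hE1, card_image_of_injective, Int.card_Icc]
    · omega
    · intro y y' hyy
      have hyy' : ({x, y} : Finset ℤ) = {x, y'} := hyy
      have h3 : y ∈ ({x, y'} : Finset ℤ) := by rw [← hyy']; simp
      have h4 : y' ∈ ({x, y} : Finset ℤ) := by rw [hyy']; simp
      simp only [mem_insert, mem_singleton] at h3 h4
      rcases h3 with h3 | h3
      · rcases h4 with h4 | h4
        · omega
        · omega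
      · exact h3
  have c3 : E3.card = D := by
    rw [hE3, card_image_of_injective _ (seg_inj (by norm_num)), Nat.card_Icc]; omega
  have c4 : E4.card = D := by
    rw [hE4, card_image_of_injective _ (seg_inj (by norm_num)), Nat.card_Icc]; omega
  have c5 : E5.card = D := by
    rw [hE5, card_image_of_injective _ (seg_inj (by norm_num)), Nat.card_Icc]; omega
  have hprs : (prs N x).card = (N - 1).choose 2 := by
    rw [prs, card_pairs, card_erase_of_mem hx, Int.card_Icc]
    congr 1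
    omega
  have hex : ((prs N x).filter (fun p => Excl x D p)).card ≤ 2 * D := by
    have h3 : (prs N x).filter (fun p => Excl x D p) ⊆
        (Icc 1 D).image (fun d : ℕ => (x - d, x + 2 * d)) ∪
          (Icc 1 D).image (fun d : ℕ => (x - 2 * d, x + d)) := by
      rintro ⟨y, z⟩ hp
      rw [mem_filter] at hp
      obtain ⟨_, d, hd, h4⟩ := hp
      simp only at h4
      simp only [mem_union, mem_image, Prod.mk.injEq]
      rcases h4 with ⟨rfl, rfl⟩ | ⟨rfl, rfl⟩
      · left; exact ⟨d, hd, rfl, rfl⟩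
      · right; exact ⟨d, hd, rfl, rfl⟩
    have h4 := le_trans (card_le_card h3) (card_union_le _ _)
    have h5 : ((Icc 1 D).image (fun d : ℕ => (x - (d : ℤ), x + 2 * (d : ℤ)))).card ≤ D :=
      le_trans card_image_le (by rw [Nat.card_Icc]; omega)
    have h6 : ((Icc 1 D).image (fun d : ℕ => (x - 2 * (d : ℤ), x + (d : ℤ)))).card ≤ D :=
      le_trans card_image_le (by rw [Nat.card_Icc]; omega)
    omega
  have c2 : (N - 1).choose 2 ≤ E2.card + 2 * D := by
    have h3 : E2.card = ((prs N x).filter (fun p => ¬ Excl x D p)).card := by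
      rw [hE2]
      apply card_image_of_injOn
      rintro ⟨y, z⟩ hp ⟨y', z'⟩ hp' heq
      have heq' : ({x, y, z} : Finset ℤ) = {x, y', z'} := heq
      simp only [prs, coe_filter, mem_filter, mem_product, mem_erase, Set.mem_setOf_eq] at hp hp'
      have m1 : y ∈ ({x, y', z'} : Finset ℤ) := by rw [← heq']; simp
      have m2 : z ∈ ({x, y', z'} : Finset ℤ) := by rw [← heq']; simp
      have m3 : y' ∈ ({x, y, z} : Finset ℤ) := by rw [heq']; simp
      have m4 : z' ∈ ({x, y, z} : Finset ℤ) := by rw [heq']; simp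
      simp only [mem_insert, mem_singleton] at m1 m2 m3 m4
      obtain ⟨⟨⟨⟨n1, _⟩, n2, _⟩, n3⟩, _⟩ := hp
      obtain ⟨⟨⟨⟨n1', _⟩, n2', _⟩, n3'⟩, _⟩ := hp'
      rw [Prod.mk.injEq]
      omega
    have h4 := card_filter_add_card_filter_not (s := prs N x) (fun p => Excl x D p)
    omega
  -- disjointness
  have card3 : ∀ A ∈ E2, A.card = 3 := by
    intro A hA
    rw [hE2, mem_image] at hA
    obtain ⟨⟨y, z⟩, hp, rfl⟩ := hA
    simp only [prs, mem_filter, mem_product, mem_erase] at hp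
    obtain ⟨⟨⟨⟨n1, _⟩, n2, _⟩, n3⟩, _⟩ := hp
    exact card_eq_three.2 ⟨x, y, z, n1.symm, n2.symm, n3.ne, rfl⟩
  have card2 : ∀ A ∈ E1, A.card ≤ 2 := by
    intro A hA
    rw [hE1, mem_image] at hA
    obtain ⟨y, _, rfl⟩ := hA
    exact card_le_two
  have card4 : ∀ A ∈ E3, A.card = 4 := by
    intro A hA
    rw [hE3, mem_image] at hA
    obtain ⟨d, hd, rfl⟩ := hA
    exact card_seg x (mem_Icc.1 hd).1 1 2
  have card4' : ∀ A ∈ E4, A.card = 4 := by
    intro A hA
    rw [hE4, mem_image] at hA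
    obtain ⟨d, hd, rfl⟩ := hA
    exact card_seg x (mem_Icc.1 hd).1 2 1
  have card5 : ∀ A ∈ E5, A.card = 5 := by
    intro A hA
    rw [hE5, mem_image] at hA
    obtain ⟨d, hd, rfl⟩ := hA
    exact card_seg x (mem_Icc.1 hd).1 2 2
  have d34 : Disjoint E3 E4 := by
    rw [disjoint_left]
    intro A hA hB
    rw [hE3, mem_image] at hA
    rw [hE4, mem_image] at hB
    obtain ⟨d, hd, rfl⟩ := hA
    obtain ⟨d', hd', heq⟩ := hB
    have hd1 := (mem_Icc.1 hd).1
    have hd1' := (mem_Icc.1 hd').1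
    have t1 : x + 2 * (d : ℤ) ∈ seg x d 1 2 := mem_seg.2 ⟨2, by norm_num, by norm_num, rfl⟩
    have t2 : x + (-2) * (d' : ℤ) ∈ seg x d' 2 1 := mem_seg.2 ⟨-2, by norm_num, by norm_num, rfl⟩
    rw [← heq, mem_seg] at t1
    rw [heq, mem_seg] at t2
    obtain ⟨k, k1, k2, k3⟩ := t1
    obtain ⟨l, l1, l2, l3⟩ := t2
    have e1 : k * (d' : ℤ) ≤ 1 * d' := mul_le_mul_of_nonneg_right (by simpa using k2) (by omega)
    have e2 : (-1) * (d : ℤ) ≤ l * d := mul_le_mul_of_nonneg_right (by simpa using l1) (by omega)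
    omega
  rw [hdef, card_union_of_disjoint, card_union_of_disjoint, card_union_of_disjoint,
    card_union_of_disjoint, c1, c3, c4, c5]
  · have hch : N.choose 2 + 1 = (N - 1).choose 2 + N := by
      obtain ⟨n, rfl⟩ : ∃ n, N = n + 1 := ⟨N - 1, by omega⟩
      rw [Nat.choose_succ_succ' n 1]
      simp
      omega
    omega
  · rw [disjoint_left]
    intro A hA hB
    have := card4' A hA
    have := card5 A hB
    omega
  · rw [disjoint_union_right]
    refine ⟨d34, ?_⟩
    rw [disjoint_left]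
    intro A hA hB
    have := card4 A hA
    have := card5 A hB
    omega
  · rw [disjoint_left]
    intro A hA hB
    have h3 := card3 A hA
    simp only [mem_union] at hB
    rcases hB with hB | hB | hB
    · have := card4 A hB
      omega
    · have := card4' A hB
      omega
    · have := card5 A hB
      omega
  · rw [disjoint_left]
    intro A hA hB
    have h3 := card2 A hA
    simp only [mem_union] at hB
    rcases hB with hB | hB | hB | hB
    · have := card3 A hB
      omega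
    · have := card4 A hB
      omega
    · have := card4' A hB
      omega
    · have := card5 A hB
      omega

end Pool.Agent.APInt
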