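import Pool.Agent.APInt.Basic
import Pool.Agent.APInt.Cop

/-!
The upper bound for admissible families with a common element.
-/

set_option autoImplicit false

namespace Pool.Agent.APInt

open Finset

/-- the progression `{x + k d : -i ≤ k ≤ j}` -/
noncomputable def seg (x : ℤ) (d i j : ℕ) : Finset ℤ :=
  (Icc (-(i : ℤ)) (j : ℤ)).image (fun k => x + k * (d : ℤ))

lemma mem_seg {x : ℤ} {d i j : ℕ} {t : ℤ} :
    t ∈ seg x d i j ↔ ∃ k : ℤ, -(i : ℤ) ≤ k ∧ k ≤ j ∧ x + k * (d : ℤ) = t := by
  simp only [seg, mem_image, mem_Icc]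
  constructor
  · rintro ⟨k, ⟨h1, h2⟩, h3⟩
    exact ⟨k, h1, h2, h3⟩
  · rintro ⟨k, h1, h2, h3⟩
    exact ⟨k, ⟨h1, h2⟩, h3⟩

lemma card_pairs (S : Finset ℤ) :
    ((S ×ˢ S).filter (fun p => p.1 < p.2)).card = S.card.choose 2 := by
  classical
  set Q := (S ×ˢ S).filter (fun p => p.1 < p.2) with hQ
  have h1 : S.offDiag = Q ∪ Q.image Prod.swap := by
    ext ⟨a, b⟩
    simp only [hQ, mem_offDiag, mem_union, mem_filter, mem_product, mem_image, Prod.exists,
      Prod.swap_prod_mk, Prod.mk.injEq]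
    constructor
    · rintro ⟨h1, h2, h3⟩
      rcases lt_or_gt_of_ne h3 with h | h
      · left; exact ⟨⟨h1, h2⟩, h⟩
      · right; exact ⟨b, a, ⟨⟨h2, h1⟩, h⟩, rfl, rfl⟩
    · rintro (⟨⟨h1, h2⟩, h3⟩ | ⟨c, d, ⟨⟨h1, h2⟩, h3⟩, rfl, rfl⟩)
      · exact ⟨h1, h2, h3.ne⟩
      · exact ⟨h2, h1, h3.ne'⟩
  have h2 := offDiag_card S
  rw [h1, card_union_of_disjoint, card_image_of_injective _ Prod.swap_injective] at h2
  · rw [Nat.choose_two_right, Nat.mul_sub_one]
    omega
  · rw [disjoint_left]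
    rintro ⟨a, b⟩ h3 h4
    simp only [hQ, mem_filter, mem_image, Prod.exists, Prod.swap_prod_mk, Prod.mk.injEq] at h3 h4
    obtain ⟨c, d, ⟨_, h5⟩, rfl, rfl⟩ := h4
    have := h3.2
    omega

lemma exists_seg {N : ℕ} {x : ℤ} {P : Finset ℤ} (hP : IsAP P) (hx : x ∈ P)
    (hc : 3 ≤ P.card) (hN : P ⊆ Icc (1 : ℤ) N) :
    ∃ d ∈ Icc 1 N, ∃ i ∈ range (N + 1), ∃ j ∈ range (N + 1), 2 ≤ i + j ∧ P = seg x d i j := by
  obtain ⟨a, d, b, hd, hab, hdvd, h⟩ := (isAP_iff P).1 hP
  obtain ⟨⟨i, hi⟩, hax, hxb⟩ := (h x).1 hx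
  have hbx : d ∣ b - x := by
    have : b - x = (b - a) - (x - a) := by ring
    rw [this]
    exact dvd_sub hdvd ⟨i, hi⟩
  obtain ⟨j, hj⟩ := hbx
  have haP : a ∈ P := (h a).2 ⟨by simp, le_refl _, hab⟩
  have hbP : b ∈ P := (h b).2 ⟨hdvd, hab, le_refl _⟩
  have haN := mem_Icc.1 (hN haP)
  have hbN := mem_Icc.1 (hN hbP)
  have hi0 : 0 ≤ i := by
    by_contra hneg
    push Not at hneg
    have : d * i < 0 := mul_neg_of_pos_of_neg (by omega) hneg
    omega
  have hj0 : 0 ≤ j := by
    by_contra hneg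
    push Not at hneg
    have : d * j < 0 := mul_neg_of_pos_of_neg (by omega) hneg
    omega
  have hPseg : P = (Icc (-i) j).image (fun k => x + k * d) := by
    ext t
    rw [h t]
    simp only [mem_image, mem_Icc]
    constructor
    · rintro ⟨⟨k, hk⟩, h1, h2⟩
      refine ⟨k - i, ⟨?_, ?_⟩, ?_⟩
      · by_contra hneg
        push Not at hneg
        have : d * k < 0 := mul_neg_of_pos_of_neg (by omega) (by omega)
        omega
      · by_contra hneg
        push Not at hneg
        have h3 : d * (j + i) < d * k := mul_lt_mul_of_pos_left (by omega) (by omega)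
        have h4 : d * (j + i) = d * j + d * i := by ring
        omega
      · have h4 : (k - i) * d = d * k - d * i := by ring
        omega
    · rintro ⟨k, ⟨h1, h2⟩, h3⟩
      have h5 : 0 ≤ d * (k + i) := mul_nonneg (by omega) (by omega)
      have h6 : d * (k + i) = d * k + d * i := by ring
      have h7 : k * d = d * k := by ring
      have h8 : d * k ≤ d * j := mul_le_mul_of_nonneg_left h2 (by omega)
      refine ⟨⟨k + i, by omega⟩, by omega, by omega⟩
  have hcard : P.card = (i + j + 1).toNat := by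
    rw [hPseg, card_image_of_injective, Int.card_Icc]
    · congr 1; ring
    · intro u v huv
      have h9 : x + u * d = x + v * d := huv
      have h10 : (u - v) * d = 0 := by
        have : (u - v) * d = u * d - v * d := by ring
        omega
      rcases mul_eq_zero.1 h10 with h11 | h11 <;> omega
  have hij : 2 ≤ i + j := by omega
  have hdi : i ≤ d * i := by nlinarith
  have hdj : j ≤ d * j := by nlinarith
  have hdij : d ≤ d * (i + j) := by nlinarith
  have h6 : d * (i + j) = d * i + d * j := by ring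
  refine ⟨d.toNat, ?_, i.toNat, ?_, j.toNat, ?_, by omega, ?_⟩
  · rw [mem_Icc]; omega
  · rw [mem_range]; omega
  · rw [mem_range]; omega
  · rw [hPseg, seg, Int.toNat_of_nonneg hi0, Int.toNat_of_nonneg hj0,
      Int.toNat_of_nonneg (by omega : (0 : ℤ) ≤ d)]

theorem star_upper (N x : ℕ) (hx1 : 1 ≤ x) (hxN : x ≤ N) (F : Finset (Finset ℤ))
    (hF : Admissible N F) (hxF : ∀ A ∈ F, (x : ℤ) ∈ A) :
    F.card ≤ N.choose 2 + 1 + min (x - 1) (N - x) / 2 := by
  classical
  obtain ⟨hsub, hint⟩ := hF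
  set X : Finset ℤ := (Icc (1 : ℤ) N).erase x with hX
  set Q := (X ×ˢ X).filter (fun p => p.1 < p.2) with hQ
  have hxm : (x : ℤ) ∈ Icc (1 : ℤ) N := by rw [mem_Icc]; omega
  have hXc : X.card = N - 1 := by
    rw [hX, card_erase_of_mem hxm, Int.card_Icc]
    omega
  have hQc : Q.card = (N - 1).choose 2 := by rw [hQ, card_pairs, hXc]
  set Fs := F.filter (fun A => A.card ≤ 2) with hFs
  set Fn := F.filter (fun A => ¬ IsAP A) with hFn
  set Fa := F.filter (fun A => IsAP A ∧ 3 ≤ A.card) with hFa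
  have hcover : F.card ≤ Fs.card + (Fn.card + Fa.card) := by
    have h1 : F ⊆ Fs ∪ (Fn ∪ Fa) := by
      intro A hA
      simp only [hFs, hFn, hFa, mem_union, mem_filter]
      by_cases h1 : A.card ≤ 2
      · left; exact ⟨hA, h1⟩
      · by_cases h2 : IsAP A
        · right; right; exact ⟨hA, h2, by omega⟩
        · right; left; exact ⟨hA, h2⟩
    refine le_trans (card_le_card h1) (le_trans (card_union_le _ _) ?_)
    have := card_union_le Fn Fa
    omega
  -- small sets
  have hFsc : Fs.card ≤ N := by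
    have h1 : Fs ⊆ (Icc (1 : ℤ) N).image (fun y => {(x : ℤ), y}) := by
      intro A hA
      rw [hFs, mem_filter] at hA
      obtain ⟨hA, hc⟩ := hA
      have hxA := hxF A hA
      rw [mem_image]
      by_cases h2 : (A.erase x).Nonempty
      · obtain ⟨y, hy⟩ := h2
        have hy' := mem_erase.1 hy
        refine ⟨y, hsub A hA hy'.2, ?_⟩
        apply eq_of_subset_of_card_le
        · intro t ht
          simp only [mem_insert, mem_singleton] at ht
          rcases ht with rfl | rfl
          · exact hxA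
          · exact hy'.2
        · rw [card_pair hy'.1.symm]; exact hc
      · rw [not_nonempty_iff_eq_empty] at h2
        refine ⟨x, hxm, ?_⟩
        rw [← insert_erase hxA, h2]
        simp
    have h2 := le_trans (card_le_card h1) card_image_le
    rw [Int.card_Icc] at h2
    omega
  -- the pairs inside a progression of the family
  set Om := Q.filter (fun p => ∃ P ∈ Fa, p.1 ∈ P ∧ p.2 ∈ P) with hOm
  -- the sets which are not progressions
  have hown : ∀ A ∈ Fn, ∃ p : ℤ × ℤ, p.1 ∈ A ∧ p.2 ∈ A ∧ p.1 ≠ x ∧ p.2 ≠ x ∧ p.1 < p.2 ∧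
      ∀ P ⊆ A, IsAP P → (x : ℤ) ∈ P → p.1 ∈ P → p.2 ∈ P → False := by
    intro A hA
    rw [hFn, mem_filter] at hA
    obtain ⟨y, hy, z, hz, h1, h2, h3, h4⟩ := exists_owned (hxF A hA.1) hA.2
    exact ⟨(y, z), hy, hz, h1, h2, h3, h4⟩
  choose! own hown using hown
  have hFnc : Fn.card + Om.card ≤ Q.card := by
    have h1 : (Fn.image own).card = Fn.card := by
      apply card_image_of_injOn
      intro A hA B hB hAB
      by_contra hne
      have hA' := hown A hA
      have hB' := hown B hB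
      have hAF := (mem_filter.1 hA).1
      have hBF := (mem_filter.1 hB).1
      have hP := hint A hAF B hBF hne
      have hAB' : own A = own B := hAB
      exact hA'.2.2.2.2.2 (A ∩ B) inter_subset_left hP
        (mem_inter.2 ⟨hxF A hAF, hxF B hBF⟩)
        (mem_inter.2 ⟨hA'.1, by rw [hAB']; exact hB'.1⟩)
        (mem_inter.2 ⟨hA'.2.1, by rw [hAB']; exact hB'.2.1⟩)
    have h2 : Disjoint (Fn.image own) Om := by
      rw [disjoint_left]
      intro p hp hpO
      rw [mem_image] at hp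
      obtain ⟨A, hA, rfl⟩ := hp
      rw [hOm, mem_filter] at hpO
      obtain ⟨_, P, hPa, hP1, hP2⟩ := hpO
      have hA' := hown A hA
      have hAF := (mem_filter.1 hA).1
      have hAn := (mem_filter.1 hA).2
      obtain ⟨hPF, hPAP, _⟩ := mem_filter.1 hPa
      have hne : A ≠ P := by
        rintro rfl
        exact hAn hPAP
      have hI := hint A hAF P hPF hne
      exact hA'.2.2.2.2.2 (A ∩ P) inter_subset_left hI
        (mem_inter.2 ⟨hxF A hAF, hxF P hPF⟩)
        (mem_inter.2 ⟨hA'.1, hP1⟩) (mem_inter.2 ⟨hA'.2.1, hP2⟩)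
    have h3 : Fn.image own ∪ Om ⊆ Q := by
      apply union_subset
      · intro p hp
        rw [mem_image] at hp
        obtain ⟨A, hA, rfl⟩ := hp
        have hA' := hown A hA
        have hAF := (mem_filter.1 hA).1
        simp only [hQ, hX, mem_filter, mem_product, mem_erase]
        exact ⟨⟨⟨hA'.2.2.1, hsub A hAF hA'.1⟩, hA'.2.2.2.1, hsub A hAF hA'.2.1⟩,
          hA'.2.2.2.2.1⟩
      · exact filter_subset _ _
    have h4 := card_le_card h3
    rw [card_union_of_disjoint h2, h1] at h4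
    exact h4
  -- the progressions
  set R : ℕ → Finset (ℕ × ℕ) := fun d => ((range (N + 1)) ×ˢ (range (N + 1))).filter
    (fun p => 2 ≤ p.1 + p.2 ∧ seg x d p.1 p.2 ∈ F) with hR
  have hFa1 : Fa.card ≤ ∑ d ∈ Icc 1 N, (R d).card := by
    have h1 : Fa ⊆ (Icc 1 N).biUnion (fun d => (R d).image (fun p => seg x d p.1 p.2)) := by
      intro P hP
      obtain ⟨hPF, hPAP, hc⟩ := mem_filter.1 hP
      obtain ⟨d, hd, i, hi, j, hj, hij, rfl⟩ := exists_seg hPAP (hxF P hPF) hc (hsub P hPF)
      simp only [mem_biUnion, mem_image]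
      refine ⟨d, hd, (i, j), ?_, rfl⟩
      simp only [hR, mem_filter, mem_product]
      exact ⟨⟨hi, hj⟩, hij, hPF⟩
    refine le_trans (card_le_card h1) (le_trans card_biUnion_le ?_)
    apply sum_le_sum
    intro d _
    exact card_image_le
  have hFa2 : ∑ d ∈ Icc 1 N, (R d).card ≤ ∑ d ∈ Icc 1 N, (cop (R d)).card +
      ∑ d ∈ Icc 1 N, (if (2, 2) ∈ R d then 1 else 0) := by
    rw [← sum_add_distrib]
    apply sum_le_sum
    intro d _
    apply card_le_cop
    intro p hp
    exact (mem_filter.1 hp).2.1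
  have hFa3 : ∑ d ∈ Icc 1 N, (if (2, 2) ∈ R d then 1 else 0) ≤ min (x - 1) (N - x) / 2 := by
    rw [← card_filter]
    have h1 : (Icc 1 N).filter (fun d => (2, 2) ∈ R d) ⊆ Icc 1 (min (x - 1) (N - x) / 2) := by
      intro d hd
      rw [mem_filter] at hd
      obtain ⟨hd1, hd2⟩ := hd
      have hd1' := mem_Icc.1 hd1
      simp only [hR, mem_filter, mem_product] at hd2
      have h3 := hd2.2.2
      have h4 : (x : ℤ) + (-2) * d ∈ seg x d 2 2 := mem_seg.2 ⟨-2, by norm_num, by norm_num, rfl⟩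
      have h5 : (x : ℤ) + 2 * d ∈ seg x d 2 2 := mem_seg.2 ⟨2, by norm_num, by norm_num, rfl⟩
      have h6 := mem_Icc.1 (hsub _ h3 h4)
      have h7 := mem_Icc.1 (hsub _ h3 h5)
      rw [mem_Icc]
      refine ⟨hd1'.1, ?_⟩
      rw [Nat.le_div_iff_mul_le (by norm_num)]
      apply le_min <;> omega
    have h2 := card_le_card h1
    rw [Nat.card_Icc] at h2
    omega
  have hFa4 : ∑ d ∈ Icc 1 N, (cop (R d)).card ≤ Om.card := by
    rw [← card_sigma]
    apply card_le_card_of_injOn
      (fun q : (Σ _ : ℕ, ℤ × ℤ) => ((x : ℤ) + q.2.1 * q.1, (x : ℤ) + q.2.2 * q.1))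
    · rintro ⟨d, a, b⟩ hq
      rw [mem_coe, mem_sigma] at hq
      obtain ⟨hd, hab⟩ := hq
      have hd' : 1 ≤ d ∧ d ≤ N := mem_Icc.1 hd
      obtain ⟨h1, h2, h3, h4, ⟨i, j⟩, hp, h5, h6⟩ := mem_cop hab
      simp only at h5 h6
      have hp' := hp
      simp only [hR, mem_filter, mem_product] at hp'
      obtain ⟨_, hij, hPF⟩ := hp'
      have hya : (x : ℤ) + a * d ∈ seg x d i j := mem_seg.2 ⟨a, h5, by omega, rfl⟩
      have hyb : (x : ℤ) + b * d ∈ seg x d i j := mem_seg.2 ⟨b, by omega, h6, rfl⟩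
      have hd0 : (0 : ℤ) < d := by omega
      have hane : a * d ≠ 0 := mul_ne_zero h2 (by omega)
      have hbne : b * d ≠ 0 := mul_ne_zero h3 (by omega)
      have hlt : a * d < b * d := mul_lt_mul_of_pos_right h1 hd0
      show ((x : ℤ) + a * d, (x : ℤ) + b * d) ∈ (Om : Set (ℤ × ℤ))
      rw [mem_coe]
      simp only [hOm, hQ, hX, mem_filter, mem_product, mem_erase]
      refine ⟨⟨⟨⟨by omega, hsub _ hPF hya⟩, by omega, hsub _ hPF hyb⟩, by omega⟩,
        seg x d i j, ?_, hya, hyb⟩
      rw [hFa, mem_filter]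
      refine ⟨hPF, ⟨x + (-(i : ℤ)) * d, d, i + j + 1, by omega, by omega, ?_⟩, ?_⟩
      · ext t
        rw [mem_seg]
        simp only [mem_image, mem_range]
        constructor
        · rintro ⟨k, hk1, hk2, rfl⟩
          refine ⟨(k + i).toNat, by omega, ?_⟩
          rw [Int.toNat_of_nonneg (by omega)]
          ring
        · rintro ⟨k, hk, rfl⟩
          exact ⟨(k : ℤ) - i, by omega, by omega, by ring⟩
      · rw [seg, card_image_of_injective, Int.card_Icc]
        · omega
        · intro u v huv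
          have h9 : (x : ℤ) + u * d = x + v * d := huv
          have h10 : (u - v) * d = 0 := by
            have : (u - v) * d = u * d - v * d := by ring
            omega
          rcases mul_eq_zero.1 h10 with h11 | h11 <;> omega
    · rintro ⟨d, a, b⟩ hq ⟨d', a', b'⟩ hq' heq
      rw [mem_coe, mem_sigma] at hq hq'
      obtain ⟨hd, hab⟩ := hq
      obtain ⟨hd', hab'⟩ := hq'
      have hd1 : 1 ≤ d := (mem_Icc.1 hd).1
      have hd1' : 1 ≤ d' := (mem_Icc.1 hd').1
      obtain ⟨_, _, _, hg, _⟩ := mem_cop hab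
      obtain ⟨_, _, _, hg', _⟩ := mem_cop hab'
      have heq' : ((x : ℤ) + a * d, (x : ℤ) + b * d) = ((x : ℤ) + a' * d', (x : ℤ) + b' * d') := heq
      simp only [Prod.mk.injEq] at heq'
      have e1 : a * d = a' * d' := by omega
      have e2 : b * d = b' * d' := by omega
      have g1 : Int.gcd (a * d) (b * d) = d := by
        rw [Int.gcd_mul_right, hg]; simp
      have g2 : Int.gcd (a' * d') (b' * d') = d' := by
        rw [Int.gcd_mul_right, hg']; simp
      have hdd : d = d' := by rw [← g1, ← g2, e1, e2]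
      subst hdd
      have hd0 : (d : ℤ) ≠ 0 := by omega
      have ha : a = a' := mul_right_cancel₀ hd0 e1
      have hb : b = b' := mul_right_cancel₀ hd0 e2
      rw [ha, hb]
  have hch : N.choose 2 + 1 = (N - 1).choose 2 + N := by
    obtain ⟨n, rfl⟩ : ∃ n, N = n + 1 := ⟨N - 1, by omega⟩
    rw [Nat.choose_succ_succ' n 1]
    simp
    omega
  omega

end Pool.Agent.APInt
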